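import Pool.Agent.Helper8.Occ.Main
import Pool.Agent.Helper8.T2.Final

/-!
Leaves computed by read-k vector formulas of unbounded depth.
-/

namespace Pool.Agent.Helper8.Occ

open MvPolynomial VF ReadKTree T2
open Pool.Agent.Helper7 (shf coefSub coefSub_mono C_mem_coefSub shf_eq_C shf_mem_of_vars)

variable {n : ℕ}

theorem RK_deg {w r d d' : ℕ} (h : d ≤ d') {f : MvPolynomial (Fin n) ℚ} (hf : RK w n d r f) :
    RK w n d' r f := by
  obtain ⟨p, s, hp, hs, a, ha⟩ := hf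
  exact ⟨p, s, formula_deg h hp, hs, a, ha⟩

/-- derivatives of read-`r` vector formulas -/
theorem RK_pd {w r d : ℕ} {f : MvPolynomial (Fin n) ℚ} (hf : RK w n d r f) :
    ∀ L : List (Fin n), RK (2 ^ L.length * w) n d r (pd L f)
  | [] => by simpa using hf
  | v :: L => by
    have h1 := (RK_pd hf L).pderiv v
    have h2 : 2 ^ L.length * w + 2 ^ L.length * w = 2 ^ (v :: L).length * w := by
      rw [List.length_cons, pow_succ]; ring
    rw [h2] at h1
    exact h1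

/-- the trivial generator -/
noncomputable def zgen (n : ℕ) : Fin n → MvPolynomial (Fin 0) ℚ := fun _ => 0

theorem exists_seed_zgen {c : ℕ} {f : MvPolynomial (Fin n) ℚ} (h : Phi (zgen n) c f ≠ 0) :
    ∃ s, eval (Pool.Agent.Helper5.gen n c s) f ≠ 0 := by
  obtain ⟨w, hw⟩ := exists_eval_ne_zero h
  rw [eval_Phi] at hw
  refine ⟨fun i => w (Sum.inr i), ?_⟩
  simpa [zgen] using hw

theorem zgen_of_seed {c : ℕ} {f : MvPolynomial (Fin n) ℚ}
    (s) (h : eval (Pool.Agent.Helper5.gen n c s) f ≠ 0) : Phi (zgen n) c f ≠ 0 := by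
  refine Phi_ne_zero (zgen n) c f (fun i => i.elim0) _ ?_ h
  refine ⟨s, ?_⟩
  funext v
  simp [zgen]

/-- the class of leaves -/
def 𝓡 (n w r : ℕ) : Set (MvPolynomial (Fin n) ℚ) := {g | ∃ d, RK w n d r g}

theorem zero_mem_R (w r : ℕ) : (0 : MvPolynomial (Fin n) ℚ) ∈ 𝓡 n (w + 1) (r + 1) := by
  refine ⟨0, ?_⟩
  have := (RK.C (n := n) (d := 0) (Nat.succ_pos w) 0).mono (Nat.zero_le (r + 1))
  rwa [C_0] at this

/-- **(H2)** -/
theorem tree_H2 (w r k : ℕ) : H2 (𝓡 n w r) (𝓡 n (w + 1) (r + 1)) k (tpar w r k) := by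
  classical
  rintro g ⟨d, hg⟩ ρ hρ J
  obtain ⟨a, ha1, ha2⟩ := T2.H2 w n d r k g hg ρ hρ J
  refine ⟨Finset.univ.image a, ?_, ?_, ?_⟩
  · intro x hx
    obtain ⟨i, _, rfl⟩ := Finset.mem_image.1 hx
    exact ⟨d + 1, (ha1 i).pad (Nat.le_succ w)⟩
  · exact Finset.card_image_le.trans (by simp)
  · intro m
    have h1 : ((Finset.univ.image a : Finset (MvPolynomial (Fin n) ℚ)) :
        Set (MvPolynomial (Fin n) ℚ)) = Set.range a := by simp
    rw [h1]
    exact ha2 m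

/-- the read number of the Jacobian minors -/
def kb (r M0 : ℕ) : ℕ := M0.factorial * (M0 * (r + 1))

/-- the number of seeds for the Jacobian minors -/
def c0 (w r Δ M0 n : ℕ) : ℕ :=
  Tree.expo (2 ^ (Δ + 1) * (w + 1) + 1) (kb r M0) * (Nat.clog 2 (kb r M0 * n) + 1)

/-- **(H1)** -/
theorem tree_H1 (w r Δ M0 : ℕ) :
    H1 (zgen n) (c0 w r Δ M0 n) (Dc (𝓡 n (w + 1) (r + 1)) Δ) M0 := by
  classical
  intro M hM a ha J hdet
  choose L hL b hb hab using ha
  choose d hd using hb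
  set D := Finset.univ.sup d with hD
  have h1 : ∀ i j, RK (2 ^ (Δ + 1) * (w + 1)) n D (r + 1) (pderiv (J j) (a i)) := by
    intro i j
    rw [hab i]
    have h2 := RK_deg (Finset.le_sup (f := d) (Finset.mem_univ i)) (hd i)
    have h3 := (RK_pd h2 (L i)).pderiv (J j)
    refine h3.pad ?_
    calc 2 ^ (L i).length * (w + 1) + 2 ^ (L i).length * (w + 1)
        = 2 ^ ((L i).length + 1) * (w + 1) := by rw [pow_succ]; ring
      _ ≤ 2 ^ (Δ + 1) * (w + 1) :=
        Nat.mul_le_mul_right _ (Nat.pow_le_pow_right (by norm_num) (Nat.succ_le_succ (hL i)))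
  have h2 := (RK.det (n := n) (d := D) (by positivity)
    (Matrix.of fun i j => pderiv (J j) (a i)) h1).mono (κ' := kb r M0) (by
      unfold kb
      exact Nat.mul_le_mul (Nat.factorial_le hM) (Nat.mul_le_mul_right _ hM))
  have h3 := gen_hits h2 hdet
  obtain ⟨s, hs⟩ := exists_eval_ne_zero h3
  rw [T2.eval_aeval_gen] at hs
  exact zgen_of_seed s hs

/-- the constant -/
def cT (w r κ k Δ : ℕ) : ℕ :=
  Tree.expo (2 ^ (Δ + 1) * (w + 1) + 1) (kb r (minors κ k (tpar w r k) Δ)) *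
    (Nat.clog 2 (kb r (minors κ k (tpar w r k) Δ)) + 1) + extra κ k (tpar w r k) Δ

theorem cT_le (w r κ k Δ n : ℕ) :
    c0 w r Δ (minors κ k (tpar w r k) Δ) n + extra κ k (tpar w r k) Δ ≤
      cT w r κ k Δ * (Nat.clog 2 n + 1) := by
  unfold c0 cT
  have h1 := clog_mul_le (kb r (minors κ k (tpar w r k) Δ)) n
  set E := Tree.expo (2 ^ (Δ + 1) * (w + 1) + 1) (kb r (minors κ k (tpar w r k) Δ))
  set a := Nat.clog 2 (kb r (minors κ k (tpar w r k) Δ))
  set b := Nat.clog 2 n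
  set M := extra κ k (tpar w r k) Δ
  have h2 : E * (Nat.clog 2 (kb r (minors κ k (tpar w r k) Δ) * n) + 1) ≤
      E * ((a + 1) * (b + 1)) := by
    apply Nat.mul_le_mul_left
    nlinarith
  nlinarith

/-- **Theorem.** -/
theorem hit_tree {w r κ k Δ N m R : ℕ} (a : Fin N → ℚ)
    (g : Fin N → Fin m → MvPolynomial (Fin n) ℚ) (e : Fin N → Fin m → ℕ)
    (hg : ∀ i j, OccFormula κ (fun h => ∃ d, RK w n d r h) Δ (g i j))
    (htr : ∀ b : Finset (Fin N),
      AlgebraicIndepOn ℚ (fun i => ∏ j, g i j ^ e i j) (b : Set (Fin N)) → b.card ≤ k)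
    (h0 : ∑ i, C (a i) * ∏ j, g i j ^ e i j ≠ 0) (f : MvPolynomial (Fin n) ℚ)
    (hf : f ∣ ∑ i, C (a i) * ∏ j, g i j ^ e i j)
    (hR : f.totalDegree ≤ R ∨ 2 ^ (N + 1) * (n * ∑ i, ∑ j, (g i j).totalDegree) + N ≤ R) :
    ∃ x ∈ points n (cT w r κ k Δ * (Nat.clog 2 n + 1)) R, eval x f ≠ 0 := by
  classical
  have key := occ_hit (k := k) (κ := κ) (Δ := Δ) (t₀ := tpar w r k)
    (c := c0 w r Δ (minors κ k (tpar w r k) Δ) n) (zgen n)
    (𝓡 n w r) (𝓡 n (w + 1) (r + 1))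
    (fun g ⟨d, hg⟩ => ⟨d, (hg.pad (Nat.le_succ w)).mono (Nat.le_succ r)⟩)
    (zero_mem_R w r) (tree_H2 w r k) (tree_H1 w r Δ _)
    (fun i => ∏ j, g i j ^ e i j) (by
      intro i
      exact Submonoid.prod_mem _ fun j _ => Submonoid.pow_mem _
        (Submonoid.subset_closure (show g i j ∈ F κ _ Δ from hg i j)) _) htr
    (∑ i, C (a i) * ∏ j, g i j ^ e i j) (by
      refine Subalgebra.sum_mem _ fun i _ => ?_
      rw [← algebraMap_eq, ← Algebra.smul_def]
      exact Subalgebra.smul_mem _ (Algebra.subset_adjoin (Set.mem_range_self i)) _) h0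
  obtain ⟨s, hs⟩ := exists_seed_zgen key
  obtain ⟨s', hs'⟩ := Pool.Agent.Helper5.G_mono (n := n) (cT_le w r κ k Δ n) ⟨s, rfl⟩
  rw [← hs'] at hs
  obtain ⟨f', hf'⟩ := hf
  rcases hR with hR | hR
  · refine Pool.Agent.Helper5.hit_grid f R hR _ ⟨s', fun h => hs ?_⟩
    rw [hf', map_mul, h, zero_mul]
  rcases Nat.eq_zero_or_pos n with hn | hn
  · subst hn
    refine Pool.Agent.Helper5.hit_grid f R ?_ _ ⟨s', fun h => hs ?_⟩
    · have h1 : f.totalDegree = 0 := by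
        rw [totalDegree_eq_zero_iff]
        intro m _ x
        exact x.elim0
      omega
    · rw [hf', map_mul, h, zero_mul]
  · obtain ⟨x, hx, hx0⟩ := grid_hit (L := n * ∑ i, ∑ j, (g i j).totalDegree) a g e
      (by rw [mul_comm]) s' hs
    refine ⟨x, grid_subset_points hn (Nat.succ_le_succ hR) hx, fun h => hx0 ?_⟩
    rw [hf', map_mul, h, zero_mul]

end Pool.Agent.Helper8.Occ
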