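import Pool.Agent.Helper8.Occ.H2
import Pool.Agent.Helper7.T3.Local

/-!
**Closure theorem.** From a class of leaves to products of formulas of bounded depth and bounded
occurrence over these leaves, of bounded transcendence degree.
-/

namespace Pool.Agent.Helper8.Occ

open MvPolynomial VF
open Pool.Agent.Helper7 (shf coefSub coefSub_mono C_mem_coefSub shf_eq_C)

variable {n : ℕ}

/-- the class of polynomials computed by formulas of depth `Δ` -/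
def F (κ : ℕ) (𝓛 : Set (MvPolynomial (Fin n) ℚ)) (Δ : ℕ) : Set (MvPolynomial (Fin n) ℚ) :=
  {f | OccFormula κ (fun g => g ∈ 𝓛) Δ f}

theorem F_zero {κ : ℕ} {𝓛 : Set (MvPolynomial (Fin n) ℚ)} : F κ 𝓛 0 = 𝓛 := by
  ext f
  constructor
  · intro h
    cases h with
    | leaf h => exact h
  · intro h
    exact OccFormula.leaf h

theorem F_succ {κ Δ : ℕ} {𝓛 : Set (MvPolynomial (Fin n) ℚ)} :
    F κ 𝓛 (Δ + 1) = Gate κ (F κ 𝓛 Δ) := by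
  ext f
  constructor
  · intro h
    cases h with
    | sum b hb hκ => exact ⟨_, b, hb, Or.inl ⟨hκ, Or.inl rfl⟩⟩
    | prod b hb hκ e => exact ⟨_, b, hb, Or.inl ⟨hκ, Or.inr ⟨e, rfl⟩⟩⟩
    | comp b hb hm p => exact ⟨_, b, hb, Or.inr ⟨hm, p, rfl⟩⟩
  · rintro ⟨m, b, hb, ⟨hκ, rfl | ⟨e, rfl⟩⟩ | ⟨hm, p, rfl⟩⟩
    · exact OccFormula.sum b hb hκ
    · exact OccFormula.prod b hb hκ e
    · exact OccFormula.comp b hb hm p

theorem Gate_mono {κ κ' : ℕ} (h : κ ≤ κ') {𝓑 𝓑' : Set (MvPolynomial (Fin n) ℚ)} (hB : 𝓑 ⊆ 𝓑') :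
    Gate κ 𝓑 ⊆ Gate κ' 𝓑' := by
  rintro f ⟨m, b, hb, ⟨hκ, hf⟩ | ⟨hm, hf⟩⟩
  · exact ⟨m, b, fun l => hB (hb l), Or.inl ⟨fun v => (hκ v).trans h, hf⟩⟩
  · exact ⟨m, b, fun l => hB (hb l), Or.inr ⟨hm.trans h, hf⟩⟩

theorem F_mono {κ κ' : ℕ} (h : κ ≤ κ') {𝓛 𝓛' : Set (MvPolynomial (Fin n) ℚ)} (hL : 𝓛 ⊆ 𝓛')
    (Δ : ℕ) : F κ 𝓛 Δ ⊆ F κ' 𝓛' Δ := by
  induction Δ with
  | zero => rw [F_zero, F_zero]; exact hL
  | succ Δ ih => rw [F_succ, F_succ]; exact Gate_mono h ih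

theorem F_subset_succ {κ : ℕ} (h : 1 ≤ κ) {𝓛 : Set (MvPolynomial (Fin n) ℚ)} (Δ : ℕ) :
    F κ 𝓛 Δ ⊆ F κ 𝓛 (Δ + 1) := by
  intro f hf
  rw [F_succ]
  exact ⟨1, fun _ => f, fun _ => hf, Or.inr ⟨h, X 0, by simp⟩⟩

theorem zero_mem_F {κ : ℕ} {𝓛 : Set (MvPolynomial (Fin n) ℚ)} (h0 : 0 ∈ 𝓛) (Δ : ℕ) :
    0 ∈ F κ 𝓛 Δ := by
  rcases Δ with _ | Δ
  · rw [F_zero]; exact h0
  · rw [F_succ]
    exact ⟨0, Fin.elim0, fun l => l.elim0, Or.inl ⟨fun v => by simp, Or.inl (by simp)⟩⟩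

theorem Dc_mono {𝓑 𝓑' : Set (MvPolynomial (Fin n) ℚ)} (h : 𝓑 ⊆ 𝓑') (m : ℕ) :
    Dc 𝓑 m ⊆ Dc 𝓑' m := by
  rintro f ⟨L, hL, b, hb, rfl⟩
  exact ⟨L, hL, b, h hb, rfl⟩

theorem subset_Dc {𝓑 : Set (MvPolynomial (Fin n) ℚ)} (m : ℕ) : 𝓑 ⊆ Dc 𝓑 m :=
  fun f hf => ⟨[], Nat.zero_le _, f, hf, rfl⟩

variable {σ : Type}

theorem H1.mono {γ : Fin n → MvPolynomial σ ℚ} {c : ℕ} {𝓒 𝓒' : Set (MvPolynomial (Fin n) ℚ)}
    {N N' : ℕ} (h : H1 γ c 𝓒 N) (hC : 𝓒' ⊆ 𝓒) (hN : N' ≤ N) : H1 γ c 𝓒' N' :=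
  fun M hM a ha J hdet => h M (hM.trans hN) a (fun i => hC (ha i)) J hdet

/-- the order of the minors at the leaves -/
def cN (κ : ℕ) : ℕ → ℕ → ℕ → ℕ
  | 0, M, _ => M
  | Δ + 1, M, m => cN κ Δ (nRows κ M m) (m + 1)

/-- the number of seeds which have to be added -/
def cC (κ : ℕ) : ℕ → ℕ → ℕ → ℕ
  | 0, _, _ => 0
  | Δ + 1, M, m => cC κ Δ (nRows κ M m) (m + 1) + nRows κ M m

/-- **Jacobian minors of formulas of bounded depth and bounded occurrence** -/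
theorem occ_H1 {γ : Fin n → MvPolynomial σ ℚ} {c κ : ℕ} {𝓛 : Set (MvPolynomial (Fin n) ℚ)} :
    ∀ (Δ M m : ℕ), H1 γ c (Dc 𝓛 (m + Δ)) (cN κ Δ M m) →
      H1 γ (c + cC κ Δ M m) (Dc (F κ 𝓛 Δ) m) M
  | 0, M, m, h => by
    rw [F_zero]
    exact h
  | Δ + 1, M, m, h => by
    have h1 := occ_H1 Δ (nRows κ M m) (m + 1) (by
      have h2 : m + (Δ + 1) = m + 1 + Δ := by omega
      rw [h2] at h
      exact h)
    have h2 := gate_H1 h1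
    rw [F_succ]
    unfold cC
    rw [← Nat.add_assoc]
    exact h2

/-- the number of parameters of the shifts -/
def tN (κ k t₀ : ℕ) : ℕ → ℕ
  | 0 => t₀
  | Δ + 1 => (k + 1) * κ * tN κ k t₀ Δ + 1

/-- **shifts of formulas of bounded depth and bounded occurrence** -/
theorem occ_H2 {κ k t₀ : ℕ} {𝓛 𝓛' : Set (MvPolynomial (Fin n) ℚ)} (hL : 𝓛 ⊆ 𝓛')
    (h : H2 𝓛 𝓛' k t₀) (Δ : ℕ) : H2 (F κ 𝓛 Δ) (F (κ + 1) 𝓛' Δ) k (tN κ k t₀ Δ) := by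
  induction Δ with
  | zero => rw [F_zero, F_zero]; exact h
  | succ Δ ih =>
    rw [F_succ (κ := κ)]
    refine gate_H2 ih (F_subset_succ (by omega) Δ) ?_
    rw [F_succ]
    exact Gate_mono (Nat.le_succ _) (F_mono (Nat.le_succ _) hL Δ)

/-- the order of the minors -/
def minors (κ k t₀ Δ : ℕ) : ℕ := cN (κ + 1) Δ ((k + 1) * tN κ k t₀ Δ) 0

/-- the number of added seeds -/
def extra (κ k t₀ Δ : ℕ) : ℕ :=
  cC (κ + 1) Δ ((k + 1) * tN κ k t₀ Δ) 0 + ((k + 1) * tN κ k t₀ Δ + k)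

/-- **Closure theorem.** -/
theorem occ_hit {k κ Δ t₀ c : ℕ} (γ : Fin n → MvPolynomial σ ℚ)
    (𝓛 𝓛' : Set (MvPolynomial (Fin n) ℚ)) (hL : 𝓛 ⊆ 𝓛') (h0 : 0 ∈ 𝓛')
    (h2 : H2 𝓛 𝓛' k t₀) (h1 : H1 γ c (Dc 𝓛' Δ) (minors κ k t₀ Δ))
    {N : ℕ} (T : Fin N → MvPolynomial (Fin n) ℚ) (hT : ∀ i, T i ∈ Submonoid.closure (F κ 𝓛 Δ))
    (htr : ∀ b : Finset (Fin N), AlgebraicIndepOn ℚ T (b : Set (Fin N)) → b.card ≤ k)
    (f : MvPolynomial (Fin n) ℚ) (hf : f ∈ Algebra.adjoin ℚ (Set.range T)) (hf0 : f ≠ 0) :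
    Phi γ (c + extra κ k t₀ Δ) f ≠ 0 := by
  classical
  set t := (k + 1) * tN κ k t₀ Δ with ht
  have hH1 := occ_H1 (κ := κ + 1) Δ t 0 (by rw [Nat.zero_add]; exact h1)
  have hH2 := occ_H2 (κ := κ) hL h2 Δ
  have key := interface k t (fun v => Phi γ (c + cC (κ + 1) Δ t 0) (X v)) (F κ 𝓛 Δ)
    (F (κ + 1) 𝓛' Δ) ?_ ?_ T hT htr f hf hf0
  · have h3 := Phi_Phi _ _ _ key
    have h4 : c + extra κ k t₀ Δ = c + cC (κ + 1) Δ t 0 + (t + k) := by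
      unfold extra
      rw [← ht]
      ring
    rw [h4]
    exact h3
  · intro g hg r hr J
    choose A hA1 hA2 hA3 using fun l => hH2 (g l) (hg l) r hr J
    obtain ⟨a, ha, hAa⟩ := Pool.Agent.Helper7.T3.exists_family (t := t)
      (fun q => q ∈ F (κ + 1) 𝓛' Δ) (zero_mem_F h0 Δ) (Finset.univ.biUnion A) (by
        refine Finset.card_biUnion_le.trans ?_
        calc _ ≤ ∑ _l : Fin (k + 1), tN κ k t₀ Δ := Finset.sum_le_sum fun l _ => hA2 l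
          _ = t := by simp [ht]) (by
        intro q hq
        obtain ⟨l, _, hl⟩ := Finset.mem_biUnion.1 hq
        exact hA1 l q hl)
    refine ⟨a, ha, fun l m => ?_⟩
    refine Algebra.adjoin_mono ?_ (hA3 l m)
    intro q hq
    exact hAa (Finset.mem_coe.2 (Finset.mem_biUnion.2 ⟨l, Finset.mem_univ _, hq⟩))
  · intro M hM a ha J hdet
    rw [aeval_Phi_X]
    exact hH1 M hM a (fun i => subset_Dc 0 (ha i)) J hdet

end Pool.Agent.Helper8.Occ
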