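import Mathlib

/-!
Definition: formulas of bounded depth and bounded occurrence over a class of leaves.
-/

namespace Pool.Agent.Helper8.Occ

/-- `OccFormula κ L Δ f`: the polynomial `f` is computed by a formula of depth `Δ` over leaves which
satisfy `L`. The gates are
* sums of any number of polynomials such that every variable occurs in at most `κ` of them;
* products of powers, with arbitrary exponents, of any number of polynomials such that every
  variable occurs in at most `κ` of them;
* arbitrary polynomials, of any degree, in at most `κ` polynomials. -/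
inductive OccFormula {n : ℕ} (κ : ℕ) (L : MvPolynomial (Fin n) ℚ → Prop) :
    ℕ → MvPolynomial (Fin n) ℚ → Prop
  | leaf {f : MvPolynomial (Fin n) ℚ} (hf : L f) : OccFormula κ L 0 f
  | sum {Δ m : ℕ} (b : Fin m → MvPolynomial (Fin n) ℚ) (hb : ∀ l, OccFormula κ L Δ (b l))
      (hκ : ∀ v, (Finset.univ.filter fun l => v ∈ (b l).vars).card ≤ κ) :
      OccFormula κ L (Δ + 1) (∑ l, b l)
  | prod {Δ m : ℕ} (b : Fin m → MvPolynomial (Fin n) ℚ) (hb : ∀ l, OccFormula κ L Δ (b l))
      (hκ : ∀ v, (Finset.univ.filter fun l => v ∈ (b l).vars).card ≤ κ) (e : Fin m → ℕ) :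
      OccFormula κ L (Δ + 1) (∏ l, b l ^ e l)
  | comp {Δ m : ℕ} (b : Fin m → MvPolynomial (Fin n) ℚ) (hb : ∀ l, OccFormula κ L Δ (b l))
      (hm : m ≤ κ) (p : MvPolynomial (Fin m) ℚ) : OccFormula κ L (Δ + 1) (MvPolynomial.aeval b p)

end Pool.Agent.Helper8.Occ
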