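import Pool.Agent.Helper8.Occ.Sparse

/-!
Explicit exponents.
-/

namespace Pool.Agent.Helper8.Occ

open MvPolynomial VF KS
open Pool.Agent.Helper7.T1 (ksPoly)
open Pool.Agent.Helper7.Depth4 (hittingSet)

variable {n : ℕ}

theorem tN_eq (κ k P : ℕ) : ∀ Δ, tN κ k (k + (P + 1)) Δ = tSeq κ k P Δ
  | 0 => by simp only [tN, tSeq]; ring
  | Δ + 1 => by simp only [tN, tSeq, tN_eq κ k P Δ]

theorem mSeq_succ (κ k P Δ j : ℕ) :
    mSeq κ k P Δ (j + 1) = nRows (κ + 1) (mSeq κ k P Δ j) j := by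
  simp only [mSeq, nRows]
  ring

theorem mSeq_mono (κ k P Δ j : ℕ) : mSeq κ k P Δ j ≤ mSeq κ k P Δ (j + 1) := by
  simp only [mSeq]
  have h1 : 1 ≤ (mSeq κ k P Δ j + j + 1) ^ (j + 2) := Nat.one_le_pow _ _ (Nat.succ_pos _)
  calc mSeq κ k P Δ j = 1 * mSeq κ k P Δ j * 1 := by ring
    _ ≤ (κ + 1) * mSeq κ k P Δ j * (mSeq κ k P Δ j + j + 1) ^ (j + 2) :=
        Nat.mul_le_mul (Nat.mul_le_mul_right _ (Nat.le_add_left _ _)) h1
    _ ≤ _ := Nat.le_succ _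

theorem cN_eq (κ k P Δ : ℕ) : ∀ i j, cN (κ + 1) i (mSeq κ k P Δ j) j = mSeq κ k P Δ (j + i)
  | 0, j => rfl
  | i + 1, j => by
    rw [cN, ← mSeq_succ, cN_eq κ k P Δ i (j + 1)]
    congr 1
    ring

theorem mSeq_le (κ k P Δ j : ℕ) : ∀ i, mSeq κ k P Δ j ≤ mSeq κ k P Δ (j + i)
  | 0 => le_rfl
  | i + 1 => (mSeq_le κ k P Δ j i).trans (mSeq_mono κ k P Δ (j + i))

theorem cC_le (κ k P Δ : ℕ) : ∀ i j, cC (κ + 1) i (mSeq κ k P Δ j) j ≤ i * mSeq κ k P Δ (j + i)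
  | 0, j => by simp [cC]
  | i + 1, j => by
    rw [cC, ← mSeq_succ]
    have h1 := cC_le κ k P Δ i (j + 1)
    have h2 := mSeq_le κ k P Δ (j + 1) i
    have h3 : j + 1 + i = j + (i + 1) := by ring
    rw [h3] at h1 h2
    calc _ ≤ i * mSeq κ k P Δ (j + (i + 1)) + mSeq κ k P Δ (j + (i + 1)) := Nat.add_le_add h1 h2
      _ = (i + 1) * mSeq κ k P Δ (j + (i + 1)) := by ring

theorem minors_eq (κ k P Δ : ℕ) : minors κ k (k + (P + 1)) Δ = order κ k P Δ := by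
  unfold minors order
  rw [tN_eq]
  have h := cN_eq κ k P Δ Δ 0
  rw [Nat.zero_add] at h
  exact h

theorem extra_le (κ k P Δ : ℕ) : extra κ k (k + (P + 1)) Δ ≤ seeds κ k P Δ := by
  unfold extra seeds order
  rw [tN_eq]
  have h := cC_le κ k P Δ Δ 0
  have h2 := mSeq_le κ k P Δ 0 Δ
  rw [Nat.zero_add] at h h2
  have h3 : mSeq κ k P Δ 0 = (k + 1) * tSeq κ k P Δ := rfl
  rw [h3] at h h2
  calc _ ≤ Δ * mSeq κ k P Δ Δ + (mSeq κ k P Δ Δ + k) :=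
        Nat.add_le_add h (Nat.add_le_add_right h2 _)
    _ = _ := by ring

/-- **Theorem.** -/
theorem hit_sparse' {κ k P Δ s d q : ℕ} (hq : q.Prime) (hq1 : order κ k P Δ * (d + 1) < q)
    (hq2 : (order κ k P Δ).factorial * (s + 1) ^ order κ k P Δ * n ≤ q)
    {N m R : ℕ} (a : Fin N → ℚ) (g : Fin N → Fin m → MvPolynomial (Fin n) ℚ)
    (e : Fin N → Fin m → ℕ) (hg : ∀ i j, OccFormula κ (SparseLeaf n k s P d) Δ (g i j))
    (htr : ∀ b : Finset (Fin N),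
      AlgebraicIndepOn ℚ (fun i => ∏ j, g i j ^ e i j) (b : Set (Fin N)) → b.card ≤ k)
    (h0 : ∑ i, C (a i) * ∏ j, g i j ^ e i j ≠ 0) (f : MvPolynomial (Fin n) ℚ)
    (hf : f ∣ ∑ i, C (a i) * ∏ j, g i j ^ e i j)
    (hR : 2 * q * f.totalDegree ≤ R ∨
      2 ^ (N + 1) * (2 * q * ∑ i, ∑ j, (g i j).totalDegree) + N ≤ R) :
    ∃ x ∈ hittingSet n q (seeds κ k P Δ) R, eval x f ≠ 0 := by
  have hn : n ≤ q := by
    refine le_trans ?_ hq2
    exact Nat.le_mul_of_pos_left _ (Nat.mul_pos (Nat.factorial_pos _) (pow_pos (Nat.succ_pos _) _))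
  refine post_ks hn a g e (Phi_mono _ (extra_le κ k P Δ) ?_) f hf hR
  have key := occ_hit (k := k) (κ := κ) (Δ := Δ) (c := 0) (t₀ := k + (P + 1)) (ksPoly n q)
    {g : MvPolynomial (Fin n) ℚ | SparseLeaf n k s P d g}
    {g : MvPolynomial (Fin n) ℚ | Sp (s + 1) (d + 1) g}
    (fun g hg => (show Sp s d g from ⟨hg.1, hg.2.2⟩).mono (Nat.le_succ _) (Nat.le_succ _))
    (Sp.zero _ _) (sparse_H2 k s P d) (by
      rw [minors_eq]
      exact sparse_H1 hq hq1 hq2 Δ)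
    (fun i => ∏ j, g i j ^ e i j) ?_ htr _ ?_ h0
  · rw [Nat.zero_add] at key
    exact key
  · intro i
    exact Submonoid.prod_mem _ fun j _ => Submonoid.pow_mem _
      (Submonoid.subset_closure (show g i j ∈ F κ _ Δ from hg i j)) _
  · refine Subalgebra.sum_mem _ fun i _ => ?_
    rw [← algebraMap_eq, ← Algebra.smul_def]
    exact Subalgebra.smul_mem _ (Algebra.subset_adjoin (Set.mem_range_self i)) _

end Pool.Agent.Helper8.Occ
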