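import Pool.Agent.Helper8.Occ.H1
import Pool.Agent.Helper7.T3.Coef

/-!
Shifts of gates.
-/

namespace Pool.Agent.Helper8.Occ

open MvPolynomial VF
open Pool.Agent.Helper7 (shf coefSub coefSub_mono C_mem_coefSub shf_eq_C)

variable {n : ℕ}

/-- the coefficients of shifts along few variables lie in a small algebra -/
def H2 (𝓒 𝓟 : Set (MvPolynomial (Fin n) ℚ)) (k t : ℕ) : Prop :=
  ∀ g ∈ 𝓒, ∀ r ≤ k, ∀ J : Fin r → Fin n, ∃ A : Finset (MvPolynomial (Fin n) ℚ),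
    (∀ a ∈ A, a ∈ 𝓟) ∧ A.card ≤ t ∧
      shf J g ∈ coefSub (Algebra.adjoin ℚ (A : Set (MvPolynomial (Fin n) ℚ))) r

theorem H2.mono {𝓒 𝓟 𝓟' : Set (MvPolynomial (Fin n) ℚ)} {k t t' : ℕ} (h : H2 𝓒 𝓟 k t)
    (hP : 𝓟 ⊆ 𝓟') (ht : t ≤ t') : H2 𝓒 𝓟' k t' := by
  intro g hg r hr J
  obtain ⟨A, h1, h2, h3⟩ := h g hg r hr J
  exact ⟨A, fun a ha => hP (h1 a ha), h2.trans ht, h3⟩

theorem dead_sum_mem {κ m : ℕ} {𝓑 : Set (MvPolynomial (Fin n) ℚ)}
    {b : Fin m → MvPolynomial (Fin n) ℚ} (hb : ∀ l, b l ∈ 𝓑)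
    (hκ : ∀ v, (Finset.univ.filter fun l => v ∈ (b l).vars).card ≤ κ) (S : Finset (Fin m)) :
    ∑ l ∈ S, b l ∈ Gate κ 𝓑 := by
  classical
  refine ⟨S.card, fun i => b (S.equivFin.symm i), fun l => hb _, Or.inl ⟨?_, Or.inl ?_⟩⟩
  · intro v
    refine le_trans ?_ (hκ v)
    refine Finset.card_le_card_of_injOn (fun i => ((S.equivFin.symm i : S) : Fin m)) ?_ ?_
    · intro i hi
      have h1 := (Finset.mem_filter.1 (Finset.mem_coe.1 hi)).2
      exact Finset.mem_coe.2 (Finset.mem_filter.2 ⟨Finset.mem_univ _, h1⟩)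
    · intro i _ j _ hij
      exact S.equivFin.symm.injective (Subtype.ext hij)
  · rw [← Finset.sum_coe_sort]
    exact (Equiv.sum_comp S.equivFin.symm fun i : S => b i).symm

theorem dead_prod_mem {κ m : ℕ} {𝓑 : Set (MvPolynomial (Fin n) ℚ)}
    {b : Fin m → MvPolynomial (Fin n) ℚ} (hb : ∀ l, b l ∈ 𝓑)
    (hκ : ∀ v, (Finset.univ.filter fun l => v ∈ (b l).vars).card ≤ κ) (e : Fin m → ℕ)
    (S : Finset (Fin m)) : ∏ l ∈ S, b l ^ e l ∈ Gate κ 𝓑 := by
  classical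
  refine ⟨m, b, hb, Or.inl ⟨hκ, Or.inr ⟨fun l => if l ∈ S then e l else 0, ?_⟩⟩⟩
  rw [← Finset.prod_subset (Finset.subset_univ S)]
  · exact Finset.prod_congr rfl fun l hl => by simp only [if_pos hl]
  · intro l _ hl
    simp only [if_neg hl, pow_zero]

theorem vars_prod_pow {m : ℕ} {b : Fin m → MvPolynomial (Fin n) ℚ} (e : Fin m → ℕ)
    (S : Finset (Fin m)) {v : Fin n} (h : ∀ l ∈ S, v ∉ (b l).vars) :
    v ∉ (∏ l ∈ S, b l ^ e l).vars := by
  classical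
  intro hv
  have h1 := vars_prod (s := S) (fun l => b l ^ e l) hv
  obtain ⟨l, hl, hvl⟩ := Finset.mem_biUnion.1 h1
  exact h l hl (vars_pow _ _ hvl)

theorem vars_sum_dead {m : ℕ} {b : Fin m → MvPolynomial (Fin n) ℚ}
    (S : Finset (Fin m)) {v : Fin n} (h : ∀ l ∈ S, v ∉ (b l).vars) :
    v ∉ (∑ l ∈ S, b l).vars := by
  classical
  intro hv
  have h1 := vars_sum_subset S b hv
  obtain ⟨l, hl, hvl⟩ := Finset.mem_biUnion.1 h1
  exact h l hl hvl

/-- **shifts of gates** -/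
theorem gate_H2 {κ k t : ℕ} {𝓑 𝓟 𝓟' : Set (MvPolynomial (Fin n) ℚ)} (h : H2 𝓑 𝓟 k t)
    (hP : 𝓟 ⊆ 𝓟') (hG : Gate κ 𝓑 ⊆ 𝓟') : H2 (Gate κ 𝓑) 𝓟' k ((k + 1) * κ * t + 1) := by
  classical
  intro g hg r hr J
  obtain ⟨m, b, hb, ⟨hκ, hgb⟩ | ⟨hm, p, rfl⟩⟩ := hg
  swap
  · choose A hA1 hA2 hA3 using fun l => h (b l) (hb l) r hr J
    refine ⟨Finset.univ.biUnion A, ?_, ?_, ?_⟩
    · intro a ha
      obtain ⟨l, _, hl⟩ := Finset.mem_biUnion.1 ha
      exact hP (hA1 l a hl)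
    · refine Finset.card_biUnion_le.trans ?_
      calc _ ≤ ∑ _l : Fin m, t := Finset.sum_le_sum fun l _ => hA2 l
        _ = m * t := by simp
        _ ≤ (k + 1) * κ * t := Nat.mul_le_mul_right _
            (hm.trans (Nat.le_mul_of_pos_left _ (Nat.succ_pos _)))
        _ ≤ _ := Nat.le_succ _
    · have h1 : aeval b p ∈ Algebra.adjoin ℚ (Set.range b) := by
        rw [Algebra.adjoin_range_eq_range_aeval]
        exact ⟨p, rfl⟩
      have h2 : Algebra.adjoin ℚ (Set.range b) ≤ (coefSub (Algebra.adjoin ℚ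
          ((Finset.univ.biUnion A : Finset (MvPolynomial (Fin n) ℚ)) :
            Set (MvPolynomial (Fin n) ℚ))) r).comap (shf J) := by
        rw [Algebra.adjoin_le_iff]
        rintro _ ⟨l, rfl⟩
        refine coefSub_mono (Algebra.adjoin_mono ?_) (hA3 l)
        intro a ha
        exact Finset.mem_coe.2 (Finset.mem_biUnion.2 ⟨l, Finset.mem_univ _, Finset.mem_coe.1 ha⟩)
      exact h2 h1
  set V : Finset (Fin n) := Finset.univ.image J with hV
  have hVcard : V.card ≤ k := Finset.card_image_le.trans (by simpa using hr)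
  set S : Finset (Fin m) := Finset.univ.filter fun l => ∃ v ∈ V, v ∈ (b l).vars with hSdef
  have hS : ∀ l ∈ Sᶜ, ∀ j, J j ∉ (b l).vars := by
    intro l hl j hvl
    rw [Finset.mem_compl] at hl
    exact hl (Finset.mem_filter.2 ⟨Finset.mem_univ _, J j,
      Finset.mem_image_of_mem J (Finset.mem_univ j), hvl⟩)
  have hcard : S.card ≤ k * κ := (card_live b hκ V).trans (Nat.mul_le_mul_right _ hVcard)
  choose A hA1 hA2 hA3 using fun l => h (b l) (hb l) r hr J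
  have key : ∀ d : MvPolynomial (Fin n) ℚ, d ∈ Gate κ 𝓑 →
      ∃ A' : Finset (MvPolynomial (Fin n) ℚ), (∀ a ∈ A', a ∈ 𝓟') ∧
        A'.card ≤ (k + 1) * κ * t + 1 ∧
        (∀ l ∈ S, shf J (b l) ∈ coefSub (Algebra.adjoin ℚ (A' : Set (MvPolynomial (Fin n) ℚ))) r) ∧
        d ∈ Algebra.adjoin ℚ (A' : Set (MvPolynomial (Fin n) ℚ)) := by
    intro d hd
    refine ⟨insert d (S.biUnion A), ?_, ?_, ?_, ?_⟩
    · intro a ha
      rcases Finset.mem_insert.1 ha with rfl | ha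
      · exact hG hd
      · obtain ⟨l, _, hl⟩ := Finset.mem_biUnion.1 ha
        exact hP (hA1 l a hl)
    · refine (Finset.card_insert_le _ _).trans (Nat.succ_le_succ ?_)
      refine Finset.card_biUnion_le.trans ?_
      calc _ ≤ ∑ _l ∈ S, t := Finset.sum_le_sum fun l _ => hA2 l
        _ = S.card * t := by simp
        _ ≤ k * κ * t := Nat.mul_le_mul_right _ hcard
        _ ≤ (k + 1) * κ * t := Nat.mul_le_mul_right _ (Nat.mul_le_mul_right _ (Nat.le_succ _))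
    · intro l hl
      refine coefSub_mono (Algebra.adjoin_mono ?_) (hA3 l)
      intro a ha
      exact Finset.mem_coe.2 (Finset.mem_insert_of_mem (Finset.mem_biUnion.2 ⟨l, hl,
        Finset.mem_coe.1 ha⟩))
    · exact Algebra.subset_adjoin (Finset.mem_coe.2 (Finset.mem_insert_self _ _))
  rcases hgb with rfl | ⟨e, rfl⟩
  · obtain ⟨A', h1, h2, h3, h4⟩ := key (∑ l ∈ Sᶜ, b l) (dead_sum_mem hb hκ _)
    refine ⟨A', h1, h2, ?_⟩
    rw [← Finset.sum_add_sum_compl S, map_add, map_sum]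
    refine (coefSub _ r).add_mem ((coefSub _ r).sum_mem fun l hl => h3 l hl) ?_
    rw [shf_eq_C J fun j => vars_sum_dead _ fun l hl => hS l hl j]
    exact C_mem_coefSub h4
  · obtain ⟨A', h1, h2, h3, h4⟩ := key (∏ l ∈ Sᶜ, b l ^ e l) (dead_prod_mem hb hκ e _)
    refine ⟨A', h1, h2, ?_⟩
    rw [← Finset.prod_mul_prod_compl S, map_mul, map_prod]
    refine (coefSub _ r).mul_mem ((coefSub _ r).prod_mem fun l hl => ?_) ?_
    · rw [map_pow]
      exact (coefSub _ r).pow_mem (h3 l hl) _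
    · rw [shf_eq_C J fun j => vars_prod_pow e _ fun l hl => hS l hl j]
      exact C_mem_coefSub h4

end Pool.Agent.Helper8.Occ
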