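import Mathlib

/-!
Definitions: sparse leaves and the exponents.
-/

namespace Pool.Agent.Helper8.Occ

/-- `g` has at most `s` monomials, at most `P` different exponent patterns on any `k` variables, and
degree at most `d` in every variable. -/
def SparseLeaf (n k s P d : ℕ) (g : MvPolynomial (Fin n) ℚ) : Prop :=
  g.support.card ≤ s ∧ (∀ J : Fin k → Fin n, (g.support.image fun m j => m (J j)).card ≤ P) ∧
    ∀ i, g.degreeOf i ≤ d

/-- `t_0 = k + P + 1`, `t_{j+1} = (k + 1) κ t_j + 1` -/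
def tSeq (κ k P : ℕ) : ℕ → ℕ
  | 0 => k + P + 1
  | j + 1 => (k + 1) * κ * tSeq κ k P j + 1

/-- `m_0 = (k + 1) t_Δ`, `m_{j+1} = (κ + 1) m_j (m_j + j + 1)^(j+2) + 1` -/
def mSeq (κ k P Δ : ℕ) : ℕ → ℕ
  | 0 => (k + 1) * tSeq κ k P Δ
  | j + 1 => (κ + 1) * mSeq κ k P Δ j * (mSeq κ k P Δ j + j + 1) ^ (j + 2) + 1

/-- `m_Δ` -/
def order (κ k P Δ : ℕ) : ℕ := mSeq κ k P Δ Δ

/-- the number of seeds -/
def seeds (κ k P Δ : ℕ) : ℕ := (Δ + 1) * order κ k P Δ + k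

end Pool.Agent.Helper8.Occ
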