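import Pool.Agent.Helper8.Occ.Main
import Pool.Agent.Helper8.Occ.LeafDef
import Pool.Agent.Helper7.T1.Final

/-!
Sparse leaves.
-/

namespace Pool.Agent.Helper8.Occ

open MvPolynomial VF KS
open Pool.Agent.Helper7 (shf coefSub coefSub_mono C_mem_coefSub shf_eq_C shf_mem_of_vars)
open Pool.Agent.Helper7.T1 (ksPoly h1_sparse Pat ext onJ decompose card_Pat sp_ext vars_ext
  vars_onJ full totalDegree_full mem_hittingSet exists_small)
open Pool.Agent.Helper7.Depth4 (hittingSet)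

variable {n : ℕ}

theorem Phi_mono {σ : Type} (γ : Fin n → MvPolynomial σ ℚ) {c c' : ℕ} (h : c ≤ c')
    {f : MvPolynomial (Fin n) ℚ} (hf : Phi γ c f ≠ 0) : Phi γ c' f ≠ 0 := by
  obtain ⟨w, hw⟩ := exists_eval_ne_zero hf
  rw [eval_Phi] at hw
  refine Phi_ne_zero γ c' f (fun i => w (Sum.inl i)) _ ?_ hw
  have h1 : (fun v => eval (fun i => w (Sum.inl i)) (γ v) +
      Pool.Agent.Helper5.gen n c (fun i => w (Sum.inr i)) v -
      eval (fun i => w (Sum.inl i)) (γ v)) =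
      Pool.Agent.Helper5.gen n c (fun i => w (Sum.inr i)) := by
    funext v
    ring
  rw [h1]
  exact Pool.Agent.Helper5.G_mono h ⟨_, rfl⟩

/-- from the generator to the explicit points -/
theorem post_ks {q c N m R : ℕ} (hn : n ≤ q)
    (a : Fin N → ℚ) (g : Fin N → Fin m → MvPolynomial (Fin n) ℚ) (e : Fin N → Fin m → ℕ)
    (h1 : Phi (ksPoly n q) c (∑ i, C (a i) * ∏ j, g i j ^ e i j) ≠ 0)
    (f : MvPolynomial (Fin n) ℚ) (hf : f ∣ ∑ i, C (a i) * ∏ j, g i j ^ e i j)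
    (hR : 2 * q * f.totalDegree ≤ R ∨
      2 ^ (N + 1) * (2 * q * ∑ i, ∑ j, (g i j).totalDegree) + N ≤ R) :
    ∃ x ∈ hittingSet n q c R, eval x f ≠ 0 := by
  classical
  change aeval (full n q c) (∑ i, C (a i) * ∏ j, g i j ^ e i j) ≠ 0 at h1
  obtain ⟨f', hf'⟩ := hf
  rcases hR with hR | hR
  · have h2 : aeval (full n q c) f ≠ 0 := by
      rw [hf', map_mul] at h1
      exact left_ne_zero_of_mul h1
    have h3 : (aeval (full n q c) f).totalDegree ≤ R :=
      (Helper6.totalDegree_aeval_le _ _ (fun i => totalDegree_full hn i) f).trans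
        (by rw [mul_comm]; exact hR)
    obtain ⟨s', hs', h4⟩ := exists_small _ h2 h3
    refine ⟨_, mem_hittingSet s' hs', ?_⟩
    rw [Pool.Agent.Helper7.T3.eval_aeval'] at h4
    exact h4
  · obtain ⟨s', hs', h3⟩ := Helper6.exists_nat_seed (full n q c)
      (fun i => totalDegree_full hn i) a g e le_rfl h1
    refine ⟨_, mem_hittingSet (R := R) s' (fun j => (hs' j).trans ?_), ?_⟩
    · rw [mul_comm _ (2 * q)]
      exact hR
    · rw [hf', map_mul] at h3
      exact left_ne_zero_of_mul h3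

theorem sp_pd {s d : ℕ} {b : MvPolynomial (Fin n) ℚ} (hb : Sp s d b) :
    ∀ L : List (Fin n), Sp s d (pd L b)
  | [] => hb
  | v :: L => (sp_pd hb L).pderiv v

theorem sp_X {s d : ℕ} (i : Fin n) : Sp (s + 1) (d + 1) (X i : MvPolynomial (Fin n) ℚ) := by
  classical
  refine ⟨?_, fun j => ?_⟩
  · rw [support_X, Finset.card_singleton]
    omega
  · rw [degreeOf_X]
    split_ifs <;> omega

/-- **(H2)** for sparse leaves -/
theorem sparse_H2 (k s P d : ℕ) :
    H2 {g : MvPolynomial (Fin n) ℚ | SparseLeaf n k s P d g}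
      {g : MvPolynomial (Fin n) ℚ | Sp (s + 1) (d + 1) g} k (k + (P + 1)) := by
  classical
  intro g hg r hr J
  refine ⟨(Finset.univ.image fun j => X (J j)) ∪ (Pat J g).image (fun β => ext J β g), ?_, ?_, ?_⟩
  · intro a ha
    rcases Finset.mem_union.1 ha with ha | ha
    · obtain ⟨j, _, rfl⟩ := Finset.mem_image.1 ha
      exact sp_X _
    · obtain ⟨β, _, rfl⟩ := Finset.mem_image.1 ha
      exact (sp_ext (s := s) (d := d) ⟨hg.1, hg.2.2⟩ J β).mono (Nat.le_succ _) (Nat.le_succ _)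
  · refine (Finset.card_union_le _ _).trans (Nat.add_le_add ?_ ?_)
    · refine Finset.card_image_le.trans ?_
      rwa [Finset.card_univ, Fintype.card_fin]
    · exact Finset.card_image_le.trans (card_Pat hg.2.1 hr J)
  · set A : Finset (MvPolynomial (Fin n) ℚ) := (Finset.univ.image fun j => X (J j)) ∪
      (Pat J g).image (fun β => ext J β g) with hA
    have hX : ∀ i ∈ Finset.univ.image J, (X i : MvPolynomial (Fin n) ℚ) ∈
        Algebra.adjoin ℚ (A : Set (MvPolynomial (Fin n) ℚ)) := by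
      intro i hi
      obtain ⟨j, -, rfl⟩ := Finset.mem_image.1 hi
      apply Algebra.subset_adjoin
      rw [Finset.mem_coe]
      exact Finset.mem_union_left _
        (Finset.mem_image_of_mem (fun j => X (J j)) (Finset.mem_univ j))
    rw [decompose J g, map_sum]
    refine (coefSub _ r).sum_mem fun β hβ => ?_
    rw [map_mul]
    refine (coefSub _ r).mul_mem (shf_mem_of_vars J (vars_onJ J β) hX) ?_
    rw [shf_eq_C J (fun j => vars_ext J β g j)]
    apply C_mem_coefSub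
    apply Algebra.subset_adjoin
    rw [Finset.mem_coe]
    exact Finset.mem_union_right _ (Finset.mem_image_of_mem (fun β => ext J β g) hβ)

/-- **(H1)** for sparse leaves -/
theorem sparse_H1 {s d q M0 : ℕ} (hq : q.Prime) (hq1 : M0 * (d + 1) < q)
    (hq2 : M0.factorial * (s + 1) ^ M0 * n ≤ q) (Δ : ℕ) :
    H1 (ksPoly n q) 0 (Dc {g : MvPolynomial (Fin n) ℚ | Sp (s + 1) (d + 1) g} Δ) M0 := by
  intro M hM a ha J hdet
  apply Phi_of_aeval
  refine h1_sparse hq M0 M hM hq1 hq2 (Nat.succ_pos _) a (fun i j => ?_) J hdet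
  obtain ⟨L, _, b, hb, hab⟩ := ha i
  rw [hab]
  exact (sp_pd hb L).pderiv j

/-- the constant -/
def cst (κ k P Δ : ℕ) : ℕ :=
  extra κ k (k + (P + 1)) Δ + minors κ k (k + (P + 1)) Δ +
    (minors κ k (k + (P + 1)) Δ).factorial + 1

theorem cst_bounds {κ k P Δ s d q : ℕ} (h : cst κ k P Δ * (s + 1) ^ cst κ k P Δ * (n + d + 1) ≤ q) :
    extra κ k (k + (P + 1)) Δ ≤ cst κ k P Δ ∧
    minors κ k (k + (P + 1)) Δ * (d + 1) < q ∧
    (minors κ k (k + (P + 1)) Δ).factorial * (s + 1) ^ minors κ k (k + (P + 1)) Δ * n ≤ q ∧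
    n ≤ q := by
  set c := cst κ k P Δ with hc
  set M := minors κ k (k + (P + 1)) Δ with hM
  set E := extra κ k (k + (P + 1)) Δ with hE
  have h1 : c = E + M + M.factorial + 1 := rfl
  have hp : 1 ≤ (s + 1) ^ c := Nat.one_le_pow _ _ (Nat.succ_pos _)
  have hpM : (s + 1) ^ M ≤ (s + 1) ^ c := Nat.pow_le_pow_right (Nat.succ_pos _) (by omega)
  have h2 : c * 1 * (n + d + 1) ≤ q := le_trans (Nat.mul_le_mul_right _ (Nat.mul_le_mul_left _ hp)) h
  refine ⟨by omega, ?_, ?_, ?_⟩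
  · have : M * (d + 1) < c * 1 * (n + d + 1) := by
      rw [h1]
      nlinarith [Nat.zero_le (E * (n + d + 1)), Nat.zero_le (M * n),
        Nat.zero_le (M.factorial * (n + d + 1))]
    omega
  · refine le_trans ?_ h
    exact Nat.mul_le_mul (Nat.mul_le_mul (by omega) hpM) (by omega)
  · have : n ≤ c * 1 * (n + d + 1) := by
      rw [h1]
      nlinarith [Nat.zero_le ((E + M + M.factorial) * (n + d + 1))]
    omega

/-- **Theorem.** -/
theorem hit_sparse {κ k P Δ s d q : ℕ} (hq : q.Prime)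
    (hc : cst κ k P Δ * (s + 1) ^ cst κ k P Δ * (n + d + 1) ≤ q)
    {N m R : ℕ} (a : Fin N → ℚ) (g : Fin N → Fin m → MvPolynomial (Fin n) ℚ)
    (e : Fin N → Fin m → ℕ) (hg : ∀ i j, OccFormula κ (SparseLeaf n k s P d) Δ (g i j))
    (htr : ∀ b : Finset (Fin N),
      AlgebraicIndepOn ℚ (fun i => ∏ j, g i j ^ e i j) (b : Set (Fin N)) → b.card ≤ k)
    (h0 : ∑ i, C (a i) * ∏ j, g i j ^ e i j ≠ 0) (f : MvPolynomial (Fin n) ℚ)
    (hf : f ∣ ∑ i, C (a i) * ∏ j, g i j ^ e i j)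
    (hR : 2 * q * f.totalDegree ≤ R ∨
      2 ^ (N + 1) * (2 * q * ∑ i, ∑ j, (g i j).totalDegree) + N ≤ R) :
    ∃ x ∈ hittingSet n q (cst κ k P Δ) R, eval x f ≠ 0 := by
  obtain ⟨b1, b2, b3, b4⟩ := cst_bounds hc
  refine post_ks b4 a g e (Phi_mono _ b1 ?_) f hf hR
  have key := occ_hit (k := k) (κ := κ) (Δ := Δ) (c := 0) (t₀ := k + (P + 1)) (ksPoly n q)
    {g : MvPolynomial (Fin n) ℚ | SparseLeaf n k s P d g}
    {g : MvPolynomial (Fin n) ℚ | Sp (s + 1) (d + 1) g}
    (fun g hg => (show Sp s d g from ⟨hg.1, hg.2.2⟩).mono (Nat.le_succ _) (Nat.le_succ _))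
    (Sp.zero _ _) (sparse_H2 k s P d) (sparse_H1 hq b2 b3 Δ)
    (fun i => ∏ j, g i j ^ e i j) ?_ htr _ ?_ h0
  · rw [Nat.zero_add] at key
    exact key
  · intro i
    exact Submonoid.prod_mem _ fun j _ => Submonoid.pow_mem _
      (Submonoid.subset_closure (show g i j ∈ F κ _ Δ from hg i j)) _
  · refine Subalgebra.sum_mem _ fun i _ => ?_
    rw [← algebraMap_eq, ← Algebra.smul_def]
    exact Subalgebra.smul_mem _ (Algebra.subset_adjoin (Set.mem_range_self i)) _

end Pool.Agent.Helper8.Occ
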